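import Pool.Agent.MP_41bf72_lc.AP.Final

/-! Under GCH the positive answer to the transversal question can be forced at `η = ℵ_{o+ω}` by a
Boolean algebra of size below `η` exactly when the approachability property fails at `η⁺`. -/

set_option autoImplicit false

open Cardinal Pool.Agent.MP_76b292_lc Pool.Agent.MP_41bf72_lc.AP

theorem Pool.Agent.Results.MP_41bf72_lc.Approachability.result
    (gch : ∀ c : Cardinal.{0}, ℵ₀ ≤ c → 2 ^ c = Order.succ c) (o : Ordinal.{0}) :
    ¬ AP (ℵ_ (o + Ordinal.omega0)) ↔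
      ∃ (B : Type) (_ : CompleteBooleanAlgebra B) (U : BU B),
        #B < ℵ_ (o + Ordinal.omega0) ∧ ZFC U.E ∧ IGCH U.E ∧
          IYesAt U.E (U.cl (nm B (ℵ_ (o + Ordinal.omega0)).out)) :=
  main gch o
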