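import Pool.Agent.MP_41bf72_lc.Main

/-! Under GCH the transversal question is equivalent to the property B question for almost
disjoint families, to a stick family and to a ladder system. -/

set_option autoImplicit false

open Cardinal Pool.Agent.MP_41bf72_lc

theorem Pool.Agent.Results.MP_41bf72_lc.PropertyB.result
    (gch : ∀ c : Cardinal.{0}, ℵ₀ ≤ c → 2 ^ c = Order.succ c)
    (l k : Cardinal.{0}) (hl : ℵ₀ ≤ l) : List.TFAE [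
    -- (1) the question of the problem at the level `η⁺`
    ∃ η : Cardinal.{0}, η.ord.cof ≤ l ∧ l < η ∧ Order.succ η ≤ k ∧
      ∃ (U : Type) (𝒜 : Set (Set U)), Cardinal.mk 𝒜 = Order.succ η ∧
        (∀ A ∈ 𝒜, Cardinal.mk A = Order.succ η) ∧ deg 𝒜 = l ∧
        ¬ ∃ T : Set U, ∀ A ∈ 𝒜, (T ∩ A).Nonempty ∧ Cardinal.mk (T ∩ A : Set U) < Order.succ l,
    -- (2) the same for every size of the members
    ∃ η : Cardinal.{0}, η.ord.cof ≤ l ∧ l < η ∧ Order.succ η ≤ k ∧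
      ∀ θ : Cardinal.{0}, l < θ → θ ≤ Order.succ η →
        ∃ (U : Type) (𝒜 : Set (Set U)), Cardinal.mk 𝒜 = Order.succ η ∧
          (∀ A ∈ 𝒜, Cardinal.mk A = θ) ∧ deg 𝒜 = l ∧
          ¬ ∃ T : Set U, ∀ A ∈ 𝒜, (T ∩ A).Nonempty ∧ Cardinal.mk (T ∩ A : Set U) < Order.succ l,
    -- (3) some uniform family of at most `k` sets has no transversal
    ∃ θ : Cardinal.{0}, l < θ ∧ ∃ (U : Type) (𝒜 : Set (Set U)), Cardinal.mk 𝒜 ≤ k ∧
      (∀ A ∈ 𝒜, Cardinal.mk A = θ) ∧ deg 𝒜 ≤ l ∧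
      ¬ ∃ T : Set U, ∀ A ∈ 𝒜, (T ∩ A).Nonempty ∧ Cardinal.mk (T ∩ A : Set U) < Order.succ l,
    -- (4) failure of property B
    ∃ (U : Type) (𝓔 : Set (Set U)), Cardinal.mk 𝓔 ≤ k ∧
      (∀ E ∈ 𝓔, Cardinal.mk E = Order.succ l) ∧ deg 𝓔 ≤ l ∧
      ¬ ∃ T : Set U, ∀ E ∈ 𝓔, (T ∩ E).Nonempty ∧ ¬ E ⊆ T,
    -- (5) a family that is not essentially disjoint
    ∃ (U : Type) (𝓔 : Set (Set U)), Cardinal.mk 𝓔 ≤ k ∧
      (∀ E ∈ 𝓔, Cardinal.mk E = Order.succ l) ∧ deg 𝓔 ≤ l ∧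
      ¬ ∃ F : Set U → Set U, (∀ E ∈ 𝓔, Cardinal.mk (F E) ≤ l) ∧
        ∀ E ∈ 𝓔, ∀ E' ∈ 𝓔, E ≠ E' → Disjoint (E \ F E) (E' \ F E'),
    -- (6) a stick family
    ∃ η : Cardinal.{0}, η.ord.cof ≤ l ∧ l < η ∧ Order.succ η ≤ k ∧
      ∃ 𝓢 : Set (Set (Order.succ η).ord.ToType), (∀ E ∈ 𝓢, Cardinal.mk E = Order.succ l) ∧
        deg 𝓢 ≤ l ∧ ∀ T : Set (Order.succ η).ord.ToType, Cardinal.mk T = Order.succ η →
          ∃ E ∈ 𝓢, E ⊆ T,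
    -- (7) a ladder system on a stationary set
    ∃ η : Cardinal.{0}, η.ord.cof ≤ l ∧ l < η ∧ Order.succ η ≤ k ∧
      ∃ (S : Set (Order.succ η).ord.ToType)
        (L : (Order.succ η).ord.ToType → Set (Order.succ η).ord.ToType), IsStationary S ∧
        (∀ d ∈ S, L d ⊆ Set.Iio d ∧ l < Cardinal.mk (L d) ∧
          ∀ a < d, Cardinal.mk (L d ∩ Set.Iio a : Set (Order.succ η).ord.ToType) ≤ l) ∧
        ∀ d ∈ S, ∀ d' ∈ S, d ≠ d' →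
          Cardinal.mk (L d ∩ L d' : Set (Order.succ η).ord.ToType) < l] :=
  main gch hl k
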